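import Mathlib

/-!
# Closures of cyclic automorphisms of the rational Urysohn space contain involutions

For every cyclic automorphism `σ` of the rational Urysohn space `ℚ𝕌`, the closure `G_σ` (topology of
pointwise convergence) of the group generated by the extension of `σ` to the Urysohn space contains
an element of order two.  In particular `G_σ` is never torsion-free.
-/

namespace Pool.Agent.Results.MP_30c7ca_gt.Involution

open Filter Topology

/-- `Q` is a rational Urysohn space: the Fraisse limit of the class of finite metric spaces all of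
whose distances are rational.  That is: `Q` is countable, its distances are rational, every finite
metric space with rational distances embeds isometrically in `Q`, and every isometric map from a
finite subset of `Q` into `Q` extends to an isometry of `Q` onto itself. -/
structure IsRationalUrysohn (Q : Type) [MetricSpace Q] : Prop where
  countable : Countable Q
  rational_dist : ∀ x y : Q, ∃ r : ℚ, dist x y = (r : ℝ)
  universal : ∀ (F : Type) [MetricSpace F] [Finite F],
    (∀ x y : F, ∃ r : ℚ, dist x y = (r : ℝ)) → ∃ i : F → Q, Isometry i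
  homogeneous : ∀ (s : Finset Q) (f : s → Q), Isometry f → ∃ g : Q ≃ᵢ Q, ∀ x : s, g x = f x

/-- `σ` is a cyclic automorphism: its powers permute the points of `Q` in a single infinite
cycle. -/
def IsCyclicAutomorphism {Q : Type} [MetricSpace Q] (σ : Q ≃ᵢ Q) : Prop :=
  ∀ x y : Q, ∃! n : ℤ, (σ ^ n) x = y

/-- The topology of pointwise convergence on the group `Iso(U)` of isometries of `U` onto
itself. -/
@[reducible] def pointwiseTopology (U : Type) [MetricSpace U] : TopologicalSpace (U ≃ᵢ U) :=
  TopologicalSpace.induced (fun g => (g : U → U)) inferInstance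

/-- The closure, in the topology of pointwise convergence on `Iso(U)`, of the cyclic group generated
by `τ`. -/
def closedPowers {U : Type} [MetricSpace U] (τ : U ≃ᵢ U) : Set (U ≃ᵢ U) :=
  @closure (U ≃ᵢ U) (pointwiseTopology U) (Subgroup.zpowers τ : Set (U ≃ᵢ U))

lemma isoOne_apply {X : Type} [MetricSpace X] (x : X) : (1 : X ≃ᵢ X) x = x := rfl

/-! ### The extension property -/

section Ext

variable {Q : Type} [MetricSpace Q]

/-- One-point extension of a finite set of points. -/
noncomputable def extDist (s : Finset Q) (f : Q → ℚ) : Option s → Option s → ℝ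
  | none, none => 0
  | none, some a => (f a : ℝ)
  | some a, none => (f a : ℝ)
  | some a, some b => dist (a : Q) (b : Q)

@[reducible] noncomputable def extMetric (s : Finset Q) (f : Q → ℚ)
    (hpos : ∀ a ∈ s, 0 < f a)
    (h1 : ∀ a ∈ s, ∀ b ∈ s, (f a : ℝ) - f b ≤ dist a b)
    (h2 : ∀ a ∈ s, ∀ b ∈ s, dist a b ≤ f a + f b) : MetricSpace (Option s) where
  dist := extDist s f
  dist_self := by
    intro x
    cases x <;> simp [extDist]
  dist_comm := by
    intro x y
    cases x <;> cases y <;> simp [extDist, dist_comm]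
  dist_triangle := by
    intro x y z
    rcases x with _ | ⟨a, ha⟩ <;> rcases y with _ | ⟨b, hb⟩ <;> rcases z with _ | ⟨c, hc⟩ <;>
      simp only [extDist]
    · simp
    · simp
    · have : (0:ℝ) < f b := by exact_mod_cast hpos b hb
      linarith
    · have := h1 c hc b hb
      have h := dist_comm c b
      linarith
    · simp
    · exact h2 a ha c hc
    · have := h1 a ha b hb
      linarith
    · exact dist_triangle a b c
  eq_of_dist_eq_zero := by
    intro x y h
    rcases x with _ | ⟨a, ha⟩ <;> rcases y with _ | ⟨b, hb⟩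
    · rfl
    · have : (0:ℝ) < f b := by exact_mod_cast hpos b hb
      change (f b : ℝ) = 0 at h
      linarith
    · have : (0:ℝ) < f a := by exact_mod_cast hpos a ha
      change (f a : ℝ) = 0 at h
      linarith
    · change dist a b = 0 at h
      have : a = b := by simpa using h
      subst this
      rfl

lemma exists_point (hQ : IsRationalUrysohn Q) (s : Finset Q) (f : Q → ℚ)
    (hpos : ∀ a ∈ s, 0 < f a)
    (h1 : ∀ a ∈ s, ∀ b ∈ s, (f a : ℝ) - f b ≤ dist a b)
    (h2 : ∀ a ∈ s, ∀ b ∈ s, dist a b ≤ f a + f b) :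
    ∃ z : Q, ∀ a ∈ s, dist z a = f a := by
  classical
  let _ : MetricSpace (Option s) := extMetric s f hpos h1 h2
  have hrat : ∀ x y : Option s, ∃ r : ℚ, dist x y = (r : ℝ) := by
    intro x y
    rcases x with _ | a <;> rcases y with _ | b
    · exact ⟨0, by simp⟩
    · exact ⟨f b, rfl⟩
    · exact ⟨f a, rfl⟩
    · obtain ⟨r, hr⟩ := hQ.rational_dist a b
      exact ⟨r, hr⟩
  obtain ⟨i, hi⟩ := hQ.universal (Option s) hrat
  -- the finite set of images
  let e : s → Q := fun a => i (some a)
  have he : Isometry e := by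
    refine Isometry.of_dist_eq ?_
    intro a b
    have := hi.dist_eq (some a) (some b)
    exact this
  have hinj : Function.Injective e := he.injective
  let t : Finset Q := Finset.univ.image e
  have ht : ∀ x : t, ∃ a : s, e a = x := by
    intro x
    have := x.2
    simp only [t, Finset.mem_image, Finset.mem_univ, true_and] at this
    exact this
  choose b hb using ht
  have hbi : Isometry (fun x : t => (b x : Q)) := by
    refine Isometry.of_dist_eq ?_
    intro x y
    have h := he.dist_eq (b x) (b y)
    rw [hb, hb] at h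
    exact h.symm
  obtain ⟨g, hg⟩ := hQ.homogeneous t (fun x => (b x : Q)) hbi
  refine ⟨g (i none), ?_⟩
  intro a ha
  have hmem : e ⟨a, ha⟩ ∈ t := by
    simp only [t, Finset.mem_image, Finset.mem_univ, true_and]
    exact ⟨_, rfl⟩
  have h3 := hg ⟨e ⟨a, ha⟩, hmem⟩
  have h4 : b ⟨e ⟨a, ha⟩, hmem⟩ = ⟨a, ha⟩ := hinj (hb _)
  rw [h4] at h3
  have h5 : g (e ⟨a, ha⟩) = a := h3
  calc dist (g (i none)) a = dist (g (i none)) (g (e ⟨a, ha⟩)) := by rw [h5]
    _ = dist (i none) (i (some ⟨a, ha⟩)) := g.isometry.dist_eq _ _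
    _ = dist (none : Option s) (some ⟨a, ha⟩) := hi.dist_eq _ _
    _ = f a := rfl

lemma exists_point_family (hQ : IsRationalUrysohn Q) {n : ℕ} (a : Fin n → Q) (r : Fin n → ℚ)
    (hpos : ∀ i, 0 < r i)
    (h1 : ∀ i j, (r i : ℝ) - r j ≤ dist (a i) (a j))
    (h2 : ∀ i j, dist (a i) (a j) ≤ r i + r j) :
    ∃ z : Q, ∀ i, dist z (a i) = r i := by
  classical
  let f : Q → ℚ := fun q => if h : ∃ i, a i = q then r (Classical.choose h) else 1
  have hf : ∀ i, f (a i) = r i := by
    intro i
    have h : ∃ j, a j = a i := ⟨i, rfl⟩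
    have hfe : f (a i) = r (Classical.choose h) := by
      simp only [f]
      rw [dif_pos h]
    have hc := Classical.choose_spec h
    have e1 := h1 (Classical.choose h) i
    have e2 := h1 i (Classical.choose h)
    rw [hc, dist_self] at e1
    rw [hc, dist_self] at e2
    have : (r (Classical.choose h) : ℝ) = r i := by linarith
    rw [hfe]
    exact_mod_cast this
  obtain ⟨z, hz⟩ := exists_point hQ (Finset.univ.image a) f
    (by
      intro x hx
      simp only [Finset.mem_image, Finset.mem_univ, true_and] at hx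
      obtain ⟨i, rfl⟩ := hx
      rw [hf]; exact hpos i)
    (by
      intro x hx y hy
      simp only [Finset.mem_image, Finset.mem_univ, true_and] at hx hy
      obtain ⟨i, rfl⟩ := hx
      obtain ⟨j, rfl⟩ := hy
      rw [hf, hf]; exact h1 i j)
    (by
      intro x hx y hy
      simp only [Finset.mem_image, Finset.mem_univ, true_and] at hx hy
      obtain ⟨i, rfl⟩ := hx
      obtain ⟨j, rfl⟩ := hy
      rw [hf, hf]; exact h2 i j)
  refine ⟨z, fun i => ?_⟩
  rw [hz (a i) (by simp), hf]

end Ext

/-! ### The combinatorial part: a norm on the integers -/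

/-- A rational-valued norm on `ℤ` with the part of the Urysohn extension property that is used. -/
structure UNorm (N : ℤ → ℚ) : Prop where
  zero : N 0 = 0
  neg : ∀ k, N (-k) = N k
  add_le : ∀ j k, N (j + k) ≤ N j + N k
  ext4 : ∀ (w u : ℤ) (r s : ℚ), 0 < r → 0 < s → N (2 * w) ≤ 2 * r → N (2 * u) ≤ 2 * s →
    N (w - u) ≤ r + s → N (w + u) ≤ r + s → |r - s| ≤ N (w - u) → |r - s| ≤ N (w + u) →
    ∃ z, N (z - w) = r ∧ N (z + w) = r ∧ N (z - u) = s ∧ N (z + u) = s

namespace UNorm

variable {N : ℤ → ℚ} (hN : UNorm N)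

include hN

lemma nonneg (k : ℤ) : 0 ≤ N k := by
  have h := hN.add_le k (-k)
  rw [hN.neg, add_neg_cancel, hN.zero] at h
  linarith

lemma sub_comm (j k : ℤ) : N (j - k) = N (k - j) := by
  rw [← hN.neg (j - k)]
  congr 1
  ring

lemma two_mul_le {w z : ℤ} {r : ℚ} (h1 : N (z - w) = r) (h2 : N (z + w) = r) :
    N (2 * z) ≤ 2 * r := by
  have h := hN.add_le (z - w) (z + w)
  have e : z - w + (z + w) = 2 * z := by ring
  rw [e, h1, h2] at h
  linarith

/-- There are elements of arbitrarily large norm whose double has norm at most one. -/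
lemma exists_large (m : ℕ) : ∃ w : ℤ, N (2 * w) ≤ 1 ∧ N w = m / 2 := by
  induction m with
  | zero => exact ⟨0, by simp [hN.zero], by simp [hN.zero]⟩
  | succ m ih =>
    obtain ⟨w, hw1, hw2⟩ := ih
    have hm : (0:ℚ) ≤ m := by positivity
    obtain ⟨z, hz1, hz2, hz3, -⟩ := hN.ext4 w 0 (1/2) ((m:ℚ)/2 + 1/2) (by norm_num)
      (by positivity) (by linarith) (by simp [hN.zero]; linarith)
      (by rw [sub_zero, hw2]; linarith) (by rw [add_zero, hw2]; linarith)
      (by rw [sub_zero, hw2, abs_le]; constructor <;> linarith)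
      (by rw [add_zero, hw2, abs_le]; constructor <;> linarith)
    refine ⟨z, ?_, ?_⟩
    · have := hN.two_mul_le hz1 hz2
      linarith
    · rw [sub_zero] at hz3
      rw [hz3]
      push_cast
      ring

/-- Moving towards `u` inside the set of elements whose double has norm at most `δ / 2`. -/
lemma exists_near_aux (u : ℤ) (δ : ℚ) (hδ : 0 < δ) (hu : N (2 * u) ≤ δ) (k : ℕ) :
    ∀ w : ℤ, N (2 * w) ≤ δ / 2 → max (N (w - u)) (N (w + u)) ≤ 3 * δ / 4 + k * (δ / 4) →
    ∃ z : ℤ, N (2 * z) ≤ δ / 2 ∧ N (z - u) ≤ 3 * δ / 4 := by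
  induction k with
  | zero =>
    intro w hw hs
    refine ⟨w, hw, ?_⟩
    have := le_max_left (N (w - u)) (N (w + u))
    simp only [Nat.cast_zero, zero_mul, add_zero] at hs
    linarith
  | succ k ih =>
    intro w hw hs
    by_cases hc : max (N (w - u)) (N (w + u)) ≤ 3 * δ / 4 + k * (δ / 4)
    · exact ih w hw hc
    · push Not at hc
      set s := max (N (w - u)) (N (w + u)) with hsdef
      have hk : (0:ℚ) ≤ k * (δ / 4) := by positivity
      have hs1 : 3 * δ / 4 < s := by linarith
      have l1 : N (w - u) ≤ s := le_max_left _ _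
      have l2 : N (w + u) ≤ s := le_max_right _ _
      -- lower bounds
      have a1 : N (w + u) ≤ N (w - u) + δ / 2 := by
        have h := hN.add_le (2 * w) (u - w)
        have e : 2 * w + (u - w) = w + u := by ring
        rw [e, hN.sub_comm u w] at h
        linarith
      have a2 : N (w - u) ≤ N (w + u) + δ / 2 := by
        have h := hN.add_le (2 * w) (-(w + u))
        have e : 2 * w + -(w + u) = w - u := by ring
        rw [e, hN.neg (w + u)] at h
        linarith
      have m1 : s - δ / 2 ≤ N (w - u) := by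
        rw [hsdef]
        rcases le_total (N (w - u)) (N (w + u)) with h | h
        · rw [max_eq_right h]; linarith
        · rw [max_eq_left h]; linarith
      have m2 : s - δ / 2 ≤ N (w + u) := by
        rw [hsdef]
        rcases le_total (N (w - u)) (N (w + u)) with h | h
        · rw [max_eq_right h]; linarith
        · rw [max_eq_left h]; linarith
      have habs : |δ / 4 - (s - δ / 4)| = s - δ / 2 := by
        rw [abs_sub_comm, abs_of_nonneg (by linarith)]
        ring
      obtain ⟨z, hz1, hz2, hz3, hz4⟩ := hN.ext4 w u (δ / 4) (s - δ / 4) (by positivity)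
        (by linarith) (by linarith) (by linarith) (by linarith) (by linarith)
        (by rw [habs]; exact m1) (by rw [habs]; exact m2)
      refine ih z ?_ ?_
      · have := hN.two_mul_le hz1 hz2
        linarith
      · rw [hz3, hz4, max_self]
        push_cast at hs
        linarith

lemma exists_near (u : ℤ) (δ : ℚ) (hδ : 0 < δ) (hu : N (2 * u) ≤ δ) :
    ∃ z : ℤ, N (2 * z) ≤ δ / 2 ∧ N (z - u) ≤ 3 * δ / 4 := by
  obtain ⟨k, hk⟩ := exists_nat_gt (N u / (δ / 4))
  have hk' : N u ≤ k * (δ / 4) := by
    have h4 : (0:ℚ) < δ / 4 := by positivity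
    rw [div_lt_iff₀ h4] at hk
    exact hk.le
  refine hN.exists_near_aux u δ hδ hu k 0 ?_ ?_
  · simp only [mul_zero, hN.zero]
    positivity
  · rw [zero_sub, zero_add, hN.neg, max_self]
    have : (0:ℚ) ≤ 3 * δ / 4 := by positivity
    linarith

lemma exists_seq : ∃ u : ℕ → ℤ, 2 ≤ N (u 0) ∧ (∀ n, N (2 * u n) ≤ (1/2) ^ n) ∧
    ∀ n, N (u (n + 1) - u n) ≤ 3 / 4 * (1/2) ^ n := by
  classical
  have hstep : ∀ (p : ℤ) (n : ℕ), ∃ z : ℤ, N (2 * p) ≤ (1/2) ^ n →
      N (2 * z) ≤ (1/2) ^ (n + 1) ∧ N (z - p) ≤ 3 / 4 * (1/2) ^ n := by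
    intro p n
    by_cases h : N (2 * p) ≤ (1/2) ^ n
    · obtain ⟨z, hz1, hz2⟩ := hN.exists_near p ((1/2) ^ n) (by positivity) h
      refine ⟨z, fun _ => ⟨?_, ?_⟩⟩
      · rw [pow_succ]; linarith
      · linarith
    · exact ⟨0, fun h' => absurd h' h⟩
  choose g hg using hstep
  obtain ⟨w, hw1, hw2⟩ := hN.exists_large 4
  let u : ℕ → ℤ := fun n => Nat.rec w (fun n p => g p n) n
  have hu0 : u 0 = w := rfl
  have hus : ∀ n, u (n + 1) = g (u n) n := fun n => rfl
  have hu2 : ∀ n, N (2 * u n) ≤ (1/2) ^ n := by
    intro n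
    induction n with
    | zero => rw [hu0]; simpa using hw1
    | succ n ih =>
      rw [hus]
      exact (hg (u n) n ih).1
  refine ⟨u, ?_, hu2, ?_⟩
  · rw [hu0, hw2]; norm_num
  · intro n
    rw [hus]
    exact (hg (u n) n (hu2 n)).2

end UNorm

/-! ### The norm given by a cyclic automorphism -/

section Cyclic

variable {Q : Type} [MetricSpace Q]

lemma dist_zpow (σ : Q ≃ᵢ Q) (q : Q) (j k : ℤ) :
    dist ((σ ^ j) q) ((σ ^ k) q) = dist ((σ ^ (j - k)) q) q := by
  have h : (σ ^ j) q = (σ ^ k) ((σ ^ (j - k)) q) := by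
    rw [← IsometryEquiv.mul_apply, ← zpow_add]
    congr 2
    ring
  rw [h]
  exact (σ ^ k).isometry.dist_eq _ _

lemma exists_uNorm (hQ : IsRationalUrysohn Q) (σ : Q ≃ᵢ Q) (hσ : IsCyclicAutomorphism σ) (q : Q) :
    ∃ N : ℤ → ℚ, UNorm N ∧ ∀ k : ℤ, dist ((σ ^ k) q) q = (N k : ℝ) := by
  have hr : ∀ k : ℤ, ∃ r : ℚ, dist ((σ ^ k) q) q = (r : ℝ) := fun k => hQ.rational_dist _ _
  choose N hN using hr
  have hd : ∀ j k : ℤ, dist ((σ ^ j) q) ((σ ^ k) q) = (N (j - k) : ℝ) := by
    intro j k
    rw [dist_zpow, hN]
  refine ⟨N, ⟨?_, ?_, ?_, ?_⟩, hN⟩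
  · have := hN 0
    simp only [zpow_zero, isoOne_apply, dist_self] at this
    exact_mod_cast this.symm
  · intro k
    have h1 := hd 0 k
    have h2 := hd k 0
    rw [dist_comm, h2] at h1
    simp only [sub_zero, zero_sub] at h1
    exact_mod_cast h1.symm
  · intro j k
    have h1 := dist_triangle ((σ ^ (j + k)) q) ((σ ^ k) q) ((σ ^ (0:ℤ)) q)
    rw [hd, hd, hd] at h1
    simp only [sub_zero, add_sub_cancel_right] at h1
    exact_mod_cast h1
  · intro w u r s hr hs c1 c2 c3 c4 c5 c6
    have hneg : ∀ k, N (-k) = N k := by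
      intro k
      have h1 := hd 0 k
      have h2 := hd k 0
      rw [dist_comm, h2] at h1
      simp only [sub_zero, zero_sub] at h1
      exact_mod_cast h1.symm
    have hzero : N 0 = 0 := by
      have := hN 0
      simp only [zpow_zero, isoOne_apply, dist_self] at this
      exact_mod_cast this.symm
    have d1 : N (w - -w) ≤ 2 * r := by
      have : w - -w = 2 * w := by ring
      rw [this]; exact c1
    have d1' : N (-w - w) ≤ 2 * r := by
      have : -w - w = -(2 * w) := by ring
      rw [this, hneg]; exact c1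
    have d2 : N (u - -u) ≤ 2 * s := by
      have : u - -u = 2 * u := by ring
      rw [this]; exact c2
    have d2' : N (-u - u) ≤ 2 * s := by
      have : -u - u = -(2 * u) := by ring
      rw [this, hneg]; exact c2
    have nn : ∀ k, 0 ≤ N k := by
      intro k
      have h := hN k
      have h0 : (0:ℝ) ≤ dist ((σ ^ k) q) q := dist_nonneg
      rw [h] at h0
      exact_mod_cast h0
    have e1 : N (w - u) = N (u - w) := by rw [← hneg (w - u)]; congr 1; ring
    have e2 : N (w - -u) = N (w + u) := by congr 1; ring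
    have e3 : N (-w - u) = N (w + u) := by rw [← hneg (w + u)]; congr 1; ring
    have e4 : N (-w - -u) = N (w - u) := by rw [← hneg (w - u)]; congr 1; ring
    have e5 : N (u - -w) = N (w + u) := by congr 1; ring
    have e6 : N (-u - w) = N (w + u) := by rw [← hneg (w + u)]; congr 1; ring
    have e7 : N (-u - -w) = N (w - u) := by congr 1; ring
    have e8 : N (u - w) = N (w - u) := e1.symm
    have z1 : N (w - w) = 0 := by rw [sub_self]; exact hzero
    have z2 : N (-w - -w) = 0 := by rw [sub_self]; exact hzero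
    have z3 : N (u - u) = 0 := by rw [sub_self]; exact hzero
    have z4 : N (-u - -u) = 0 := by rw [sub_self]; exact hzero
    rw [abs_le] at c5 c6
    obtain ⟨z, hz⟩ := exists_point_family hQ
      (![(σ ^ w) q, (σ ^ (-w)) q, (σ ^ u) q, (σ ^ (-u)) q]) (![r, r, s, s])
      (by
        intro i
        fin_cases i <;> simp [hr, hs])
      (by
        intro i j
        have key : ∀ (x y : ℤ) (p t : ℚ), p - t ≤ N (x - y) →
            (p : ℝ) - t ≤ dist ((σ ^ x) q) ((σ ^ y) q) := by
          intro x y p t h
          rw [hd]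
          exact_mod_cast h
        fin_cases i <;> fin_cases j
        all_goals first
          | exact key w w r r (by rw [z1]; linarith)
          | exact key w (-w) r r (by have := nn (w - -w); linarith)
          | exact key w u r s (by linarith)
          | exact key w (-u) r s (by rw [e2]; linarith)
          | exact key (-w) w r r (by have := nn (-w - w); linarith)
          | exact key (-w) (-w) r r (by rw [z2]; linarith)
          | exact key (-w) u r s (by rw [e3]; linarith)
          | exact key (-w) (-u) r s (by rw [e4]; linarith)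
          | exact key u w s r (by rw [e8]; linarith)
          | exact key u (-w) s r (by rw [e5]; linarith)
          | exact key u u s s (by rw [z3]; linarith)
          | exact key u (-u) s s (by have := nn (u - -u); linarith)
          | exact key (-u) w s r (by rw [e6]; linarith)
          | exact key (-u) (-w) s r (by rw [e7]; linarith)
          | exact key (-u) u s s (by have := nn (-u - u); linarith)
          | exact key (-u) (-u) s s (by rw [z4]; linarith))
      (by
        intro i j
        have key : ∀ (x y : ℤ) (p t : ℚ), N (x - y) ≤ p + t →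
            dist ((σ ^ x) q) ((σ ^ y) q) ≤ (p : ℝ) + t := by
          intro x y p t h
          rw [hd]
          exact_mod_cast h
        fin_cases i <;> fin_cases j
        all_goals first
          | exact key w w r r (by rw [z1]; linarith)
          | exact key w (-w) r r (by linarith)
          | exact key w u r s (by linarith)
          | exact key w (-u) r s (by rw [e2]; linarith)
          | exact key (-w) w r r (by linarith)
          | exact key (-w) (-w) r r (by rw [z2]; linarith)
          | exact key (-w) u r s (by rw [e3]; linarith)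
          | exact key (-w) (-u) r s (by rw [e4]; linarith)
          | exact key u w s r (by rw [e8]; linarith)
          | exact key u (-w) s r (by rw [e5]; linarith)
          | exact key u u s s (by rw [z3]; linarith)
          | exact key u (-u) s s (by linarith)
          | exact key (-u) w s r (by rw [e6]; linarith)
          | exact key (-u) (-w) s r (by rw [e7]; linarith)
          | exact key (-u) u s s (by linarith)
          | exact key (-u) (-u) s s (by rw [z4]; linarith))
    obtain ⟨n, hn, -⟩ := hσ q z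
    have h0 := hz 0
    have h1 := hz 1
    have h2 := hz 2
    have h3 := hz 3
    simp only [Matrix.cons_val_zero, Matrix.cons_val_one, Matrix.cons_val] at h0 h1 h2 h3
    rw [← hn, hd] at h0 h1 h2 h3
    refine ⟨n, ?_, ?_, ?_, ?_⟩
    · exact_mod_cast h0
    · rw [← sub_neg_eq_add]; exact_mod_cast h1
    · exact_mod_cast h2
    · rw [← sub_neg_eq_add]; exact_mod_cast h3

end Cyclic

/-! ### The main theorem -/

theorem result {Q : Type} [MetricSpace Q] (hQ : IsRationalUrysohn Q)
    {U : Type} [MetricSpace U] [CompleteSpace U] (ι : Q → U) (hι : Isometry ι)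
    (hdense : DenseRange ι) (σ : Q ≃ᵢ Q) (hσ : IsCyclicAutomorphism σ)
    (τ : U ≃ᵢ U) (hτ : ∀ q : Q, τ (ι q) = ι (σ q)) :
    ∃ g ∈ closedPowers τ, orderOf g = 2 := by
  -- a base point
  obtain ⟨i, -⟩ := hQ.universal Unit (fun x y => ⟨0, by simp⟩)
  let q : Q := i ()
  obtain ⟨N, hN, hNd⟩ := exists_uNorm hQ σ hσ q
  -- powers
  have hτn : ∀ (n : ℕ) (p : Q), (τ ^ n) (ι p) = ι ((σ ^ n) p) := by
    intro n
    induction n with
    | zero => intro p; simp
    | succ n ih =>
      intro p
      rw [pow_succ, pow_succ, IsometryEquiv.mul_apply, IsometryEquiv.mul_apply, hτ, ih]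
  have hτz : ∀ (n : ℤ) (p : Q), (τ ^ n) (ι p) = ι ((σ ^ n) p) := by
    intro n p
    obtain ⟨m, rfl | rfl⟩ := n.eq_nat_or_neg
    · rw [zpow_natCast, zpow_natCast]; exact hτn m p
    · apply (τ ^ m).injective
      rw [zpow_neg, zpow_neg, zpow_natCast, zpow_natCast, ← IsometryEquiv.mul_apply,
        mul_inv_cancel, isoOne_apply, hτn, ← IsometryEquiv.mul_apply, mul_inv_cancel,
        isoOne_apply]
  -- displacement of powers is constant on `U`
  have hdisp : ∀ (n : ℤ) (x : U), dist ((τ ^ n) x) x = (N n : ℝ) := by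
    intro n x
    have hclosed : IsClosed {x : U | dist ((τ ^ n) x) x = (N n : ℝ)} :=
      isClosed_eq ((τ ^ n).continuous.dist continuous_id) continuous_const
    refine hdense.induction_on (p := fun x => dist ((τ ^ n) x) x = (N n : ℝ)) x hclosed ?_
    intro p
    rw [hτz, hι.dist_eq]
    obtain ⟨m, hm, -⟩ := hσ q p
    rw [← hm, ← IsometryEquiv.mul_apply, ← zpow_add, dist_zpow]
    rw [add_sub_cancel_right]
    exact hNd n
  have hdist : ∀ (j k : ℤ) (x : U), dist ((τ ^ j) x) ((τ ^ k) x) = (N (j - k) : ℝ) := by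
    intro j k x
    rw [dist_zpow]
    exact hdisp _ _
  obtain ⟨u, hu0, hu2, hus⟩ := hN.exists_seq
  -- Cauchy sequences
  have hcs : ∀ x : U, ∀ n, dist ((τ ^ u n) x) ((τ ^ u (n + 1)) x) ≤ (3 / 4) / 1 * (1/2 : ℝ) ^ n := by
    intro x n
    rw [dist_comm, hdist]
    have := hus n
    have h : ((N (u (n + 1) - u n) : ℚ) : ℝ) ≤ ((3 / 4 * (1/2) ^ n : ℚ) : ℝ) := by
      exact_mod_cast this
    refine h.trans (le_of_eq ?_)
    push_cast
    ring
  have hcauchy : ∀ x : U, CauchySeq (fun n => (τ ^ u n) x) := fun x =>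
    cauchySeq_of_le_geometric (1/2 : ℝ) _ (by norm_num) (hcs x)
  have hlim : ∀ x : U, ∃ y : U, Tendsto (fun n => (τ ^ u n) x) atTop (𝓝 y) := fun x =>
    cauchySeq_tendsto_of_complete (hcauchy x)
  choose g hg using hlim
  have hgiso : Isometry g := by
    refine Isometry.of_dist_eq ?_
    intro x y
    have h1 : Tendsto (fun n => dist ((τ ^ u n) x) ((τ ^ u n) y)) atTop (𝓝 (dist (g x) (g y))) :=
      (hg x).dist (hg y)
    have h2 : (fun n => dist ((τ ^ u n) x) ((τ ^ u n) y)) = fun _ => dist x y := by
      funext n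
      exact (τ ^ u n).isometry.dist_eq _ _
    rw [h2] at h1
    exact tendsto_nhds_unique h1 tendsto_const_nhds
  have hgg : ∀ x, g (g x) = x := by
    intro x
    have hb : ∀ n, dist ((τ ^ u n) (g x)) x ≤ dist (g x) ((τ ^ u n) x) + (1/2 : ℝ) ^ n := by
      intro n
      have h1 := dist_triangle ((τ ^ u n) (g x)) ((τ ^ u n) ((τ ^ u n) x)) x
      rw [(τ ^ u n).isometry.dist_eq, ← IsometryEquiv.mul_apply, ← zpow_add, ← two_mul, hdisp] at h1
      have h2 : ((N (2 * u n) : ℚ) : ℝ) ≤ (1/2 : ℝ) ^ n := by
        have := hu2 n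
        have h : ((N (2 * u n) : ℚ) : ℝ) ≤ (((1/2) ^ n : ℚ) : ℝ) := by exact_mod_cast this
        refine h.trans (le_of_eq ?_)
        push_cast
        ring
      linarith
    have ht : Tendsto (fun n => dist (g x) ((τ ^ u n) x) + (1/2 : ℝ) ^ n) atTop (𝓝 (0 + 0)) := by
      refine Tendsto.add ?_ (tendsto_pow_atTop_nhds_zero_of_lt_one (by norm_num) (by norm_num))
      have := (tendsto_const_nhds (x := g x)).dist (hg x)
      rwa [dist_self] at this
    have ht2 : Tendsto (fun n => dist ((τ ^ u n) (g x)) x) atTop (𝓝 (dist (g (g x)) x)) :=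
      (hg (g x)).dist tendsto_const_nhds
    have hle : dist (g (g x)) x ≤ 0 + 0 := le_of_tendsto_of_tendsto' ht2 ht hb
    rw [add_zero] at hle
    exact dist_le_zero.mp hle
  let G : U ≃ᵢ U := IsometryEquiv.mk ⟨g, g, hgg, hgg⟩ hgiso
  have hGg : ∀ x, G x = g x := fun x => rfl
  have hG2 : G ^ 2 = 1 := by
    ext x
    rw [pow_two, IsometryEquiv.mul_apply, hGg, hGg, hgg, isoOne_apply]
  have hG1 : G ≠ 1 := by
    intro hG
    -- the sequence stays at distance at least `1/2` from the identity
    have hx : g (ι q) = ι q := by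
      have := congrArg (fun e : U ≃ᵢ U => e (ι q)) hG
      exact this
    have hdist0 := dist_le_of_le_geometric_of_tendsto₀ (1/2 : ℝ) ((3 / 4) / 1) (by norm_num)
      (hcs (ι q)) (hg (ι q))
    rw [hx, hdisp] at hdist0
    have : (2:ℝ) ≤ ((N (u 0) : ℚ) : ℝ) := by exact_mod_cast hu0
    norm_num at hdist0
    linarith
  refine ⟨G, ?_, ?_⟩
  · have htend : @Tendsto ℕ (U ≃ᵢ U) (fun n => τ ^ u n) atTop (@nhds _ (pointwiseTopology U) G) := by
      rw [pointwiseTopology, nhds_induced, tendsto_comap_iff, tendsto_pi_nhds]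
      intro x
      exact hg x
    exact @mem_closure_of_tendsto (U ≃ᵢ U) (pointwiseTopology U) _ _ _ _ _ _ htend
      (Eventually.of_forall (fun n => Subgroup.zpow_mem_zpowers τ (u n)))
  · exact orderOf_eq_prime hG2 hG1

end Pool.Agent.Results.MP_30c7ca_gt.Involution
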